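import Mathlib

/-! Filtered and graded ideals in four generators: algebra. -/

set_option autoImplicit false
set_option linter.unusedSectionVars false
set_option linter.unusedVariables false

namespace Pool.Agent.Zk77.SQ

section
variable {K R : Type*} [Field K] [Ring R] [Algebra K R] (N : ℕ → Submodule K R)

/-- multiplication by `y` raises the level by one -/
def Lt (y : R) : Prop := ∀ n p, p ∈ N n → y * p ∈ N (n + 1) ∧ p * y ∈ N (n + 1)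

variable {N}

theorem Lt.add {y z : R} (hy : Lt N y) (hz : Lt N z) : Lt N (y + z) := fun n p hp =>
  ⟨by rw [add_mul]; exact add_mem (hy n p hp).1 (hz n p hp).1,
    by rw [mul_add]; exact add_mem (hy n p hp).2 (hz n p hp).2⟩

theorem Lt.sub {y z : R} (hy : Lt N y) (hz : Lt N z) : Lt N (y - z) := fun n p hp =>
  ⟨by rw [sub_mul]; exact sub_mem (hy n p hp).1 (hz n p hp).1,
    by rw [mul_sub]; exact sub_mem (hy n p hp).2 (hz n p hp).2⟩

theorem tor {m : ℕ} (hm : (m : K) ≠ 0) {n : ℕ} {p : R} (h : ((m : ℤ) • p : R) ∈ N n) : p ∈ N n := by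
  have h1 := (N n).smul_mem (m : K)⁻¹ h
  have h2 : (m : K)⁻¹ • ((m : ℤ) • p) = p := by
    rw [natCast_zsmul, ← Nat.cast_smul_eq_nsmul K, smul_smul, inv_mul_cancel₀ hm, one_smul]
  rwa [h2] at h1

theorem z3 {s t u v : R} (h2 : (2 : K) ≠ 0) (mono : ∀ n {p : R}, p ∈ N n → p ∈ N (n + 1))
    (hs : Lt N s) (ht : Lt N t) (hu : Lt N u) (hv : Lt N v)
    (hw1 : u * s + s * u ∈ N 2)
    (hw2 : u * u + s * s ∈ N 2)
    (hw3 : v * t + t * v ∈ N 2)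
    (hw4 : v * v + t * t ∈ N 2)
    (hw5 : t * s - s * t - s + t ∈ N 2)
    (hw6 : v * u - u * v - s - t ∈ N 2)
    (hw7 : v * s - s * v - u + v + 2 * s * u - 2 * t * v ∈ N 2)
    (hw8 : t * u - u * t - u - v + 2 * s * u + 2 * t * v ∈ N 2) :
    2 * t * t * t + 2 * s * s * s - s - t ∈ N 3 := by
  have h := (add_mem (add_mem (add_mem (add_mem (add_mem (add_mem (add_mem (add_mem (add_mem (add_mem (add_mem (add_mem (add_mem (add_mem (add_mem (add_mem (zsmul_mem ((mono 2 hw6)) (2))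
      (zsmul_mem ((hu 2 _ hw1).2) (-2)))
      (zsmul_mem ((hv 2 _ hw1).1) (-1)))
      (zsmul_mem ((hv 2 _ hw1).2) (1)))
      (zsmul_mem ((hs 2 _ hw2).1) (4)))
      (zsmul_mem ((hu 2 _ hw3).1) (1)))
      (zsmul_mem ((hu 2 _ hw3).2) (-1)))
      (zsmul_mem ((hv 2 _ hw3).2) (-2)))
      (zsmul_mem ((ht 2 _ hw4).1) (4)))
      (zsmul_mem ((hs 2 _ hw6).1) (-1)))
      (zsmul_mem ((hs 2 _ hw6).2) (1)))
      (zsmul_mem ((ht 2 _ hw6).1) (-1)))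
      (zsmul_mem ((ht 2 _ hw6).2) (1)))
      (zsmul_mem ((hu 2 _ hw7).1) (1)))
      (zsmul_mem ((hu 2 _ hw7).2) (-1)))
      (zsmul_mem ((hv 2 _ hw8).1) (1)))
      (zsmul_mem ((hv 2 _ hw8).2) (-1)))
  apply tor (m := 2) (by exact_mod_cast h2)
  convert h using 1
  noncomm_ring

theorem r2 {s t u v : R} (h2 : (2 : K) ≠ 0)
    (hs : Lt N s) (ht : Lt N t) (hu : Lt N u) (hv : Lt N v)
    (hw1 : u * s + s * u ∈ N 2)
    (hw2 : u * u + s * s ∈ N 2)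
    (hw3 : v * t + t * v ∈ N 2)
    (hw4 : v * v + t * t ∈ N 2)
    (hw5 : t * s - s * t ∈ N 2)
    (hw6 : v * u - u * v ∈ N 2)
    (hw7 : v * s - s * v + 2 * s * u - 2 * t * v ∈ N 2)
    (hw8 : t * u - u * t + 2 * s * u + 2 * t * v ∈ N 2) :
    s * t * v + s * t * u + s * s * u ∈ N 3 := by
  have h := (add_mem (add_mem (add_mem (add_mem (add_mem (add_mem (add_mem (add_mem (zsmul_mem ((hs 2 _ hw3).1) (1))
      (zsmul_mem ((hs 2 _ hw3).2) (-1)))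
      (zsmul_mem ((ht 2 _ hw3).1) (2)))
      (zsmul_mem ((hu 2 _ hw5).2) (-2)))
      (zsmul_mem ((hv 2 _ hw5).1) (1)))
      (zsmul_mem ((hv 2 _ hw5).2) (1)))
      (zsmul_mem ((ht 2 _ hw7).1) (1)))
      (zsmul_mem ((ht 2 _ hw7).2) (1)))
      (zsmul_mem ((hs 2 _ hw8).1) (2)))
  apply tor (m := 4) (by
    have := mul_ne_zero h2 h2
    norm_num at this ⊢
    exact this)
  convert h using 1
  noncomm_ring

theorem r3 {s t u v : R} (h2 : (2 : K) ≠ 0)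
    (hs : Lt N s) (ht : Lt N t) (hu : Lt N u) (hv : Lt N v)
    (hw1 : u * s + s * u ∈ N 2)
    (hw2 : u * u + s * s ∈ N 2)
    (hw3 : v * t + t * v ∈ N 2)
    (hw4 : v * v + t * t ∈ N 2)
    (hw5 : t * s - s * t ∈ N 2)
    (hw6 : v * u - u * v ∈ N 2)
    (hw7 : v * s - s * v + 2 * s * u - 2 * t * v ∈ N 2)
    (hw8 : t * u - u * t + 2 * s * u + 2 * t * v ∈ N 2) :
    t * t * v - 2 * s * t * u - s * s * u ∈ N 3 := by
  have h := (add_mem (add_mem (add_mem (add_mem (add_mem (add_mem (add_mem (add_mem (add_mem (add_mem (add_mem (add_mem (add_mem (zsmul_mem ((hs 2 _ hw1).1) (-2))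
      (zsmul_mem ((ht 2 _ hw1).1) (-1)))
      (zsmul_mem ((ht 2 _ hw1).2) (1)))
      (zsmul_mem ((hs 2 _ hw3).1) (-1)))
      (zsmul_mem ((hs 2 _ hw3).2) (1)))
      (zsmul_mem ((ht 2 _ hw3).1) (-2)))
      (zsmul_mem ((hu 2 _ hw5).1) (1)))
      (zsmul_mem ((hu 2 _ hw5).2) (7)))
      (zsmul_mem ((hv 2 _ hw5).1) (-1)))
      (zsmul_mem ((hv 2 _ hw5).2) (-3)))
      (zsmul_mem ((ht 2 _ hw7).1) (-3)))
      (zsmul_mem ((ht 2 _ hw7).2) (-1)))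
      (zsmul_mem ((hs 2 _ hw8).1) (-1)))
      (zsmul_mem ((hs 2 _ hw8).2) (1)))
  apply tor (m := 4) (by
    have := mul_ne_zero h2 h2
    norm_num at this ⊢
    exact this)
  convert h using 1
  noncomm_ring

theorem r5 {s t u v : R} (h2 : (2 : K) ≠ 0)
    (hs : Lt N s) (ht : Lt N t) (hu : Lt N u) (hv : Lt N v)
    (hw1 : u * s + s * u ∈ N 2)
    (hw2 : u * u + s * s ∈ N 2)
    (hw3 : v * t + t * v ∈ N 2)
    (hw4 : v * v + t * t ∈ N 2)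
    (hw5 : t * s - s * t ∈ N 2)
    (hw6 : v * u - u * v ∈ N 2)
    (hw7 : v * s - s * v + 2 * s * u - 2 * t * v ∈ N 2)
    (hw8 : t * u - u * t + 2 * s * u + 2 * t * v ∈ N 2) :
    t * u * v + s * u * v + s * s * s ∈ N 3 := by
  have h := (add_mem (add_mem (add_mem (add_mem (add_mem (add_mem (add_mem (add_mem (add_mem (zsmul_mem ((hs 2 _ hw2).1) (4))
      (zsmul_mem ((hu 2 _ hw3).1) (1)))
      (zsmul_mem ((hu 2 _ hw3).2) (-1)))
      (zsmul_mem ((hv 2 _ hw3).2) (-2)))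
      (zsmul_mem ((hs 2 _ hw6).1) (-2)))
      (zsmul_mem ((ht 2 _ hw6).1) (-3)))
      (zsmul_mem ((ht 2 _ hw6).2) (1)))
      (zsmul_mem ((hu 2 _ hw7).2) (-2)))
      (zsmul_mem ((hv 2 _ hw8).1) (1)))
      (zsmul_mem ((hv 2 _ hw8).2) (1)))
  apply tor (m := 4) (by
    have := mul_ne_zero h2 h2
    norm_num at this ⊢
    exact this)
  convert h using 1
  noncomm_ring

theorem r6 {s t u v : R} (h2 : (2 : K) ≠ 0)
    (hs : Lt N s) (ht : Lt N t) (hu : Lt N u) (hv : Lt N v)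
    (hw1 : u * s + s * u ∈ N 2)
    (hw2 : u * u + s * s ∈ N 2)
    (hw3 : v * t + t * v ∈ N 2)
    (hw4 : v * v + t * t ∈ N 2)
    (hw5 : t * s - s * t ∈ N 2)
    (hw6 : v * u - u * v ∈ N 2)
    (hw7 : v * s - s * v + 2 * s * u - 2 * t * v ∈ N 2)
    (hw8 : t * u - u * t + 2 * s * u + 2 * t * v ∈ N 2) :
    t * t * t + s * s * s ∈ N 3 := by
  have h := (add_mem (add_mem (add_mem (add_mem (add_mem (add_mem (add_mem (add_mem (add_mem (add_mem (add_mem (add_mem (add_mem (add_mem (add_mem (zsmul_mem ((hu 2 _ hw1).2) (-2))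
      (zsmul_mem ((hv 2 _ hw1).1) (-1)))
      (zsmul_mem ((hv 2 _ hw1).2) (1)))
      (zsmul_mem ((hs 2 _ hw2).1) (4)))
      (zsmul_mem ((hu 2 _ hw3).1) (1)))
      (zsmul_mem ((hu 2 _ hw3).2) (-1)))
      (zsmul_mem ((hv 2 _ hw3).2) (-2)))
      (zsmul_mem ((ht 2 _ hw4).1) (4)))
      (zsmul_mem ((hs 2 _ hw6).1) (-1)))
      (zsmul_mem ((hs 2 _ hw6).2) (1)))
      (zsmul_mem ((ht 2 _ hw6).1) (-1)))
      (zsmul_mem ((ht 2 _ hw6).2) (1)))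
      (zsmul_mem ((hu 2 _ hw7).1) (1)))
      (zsmul_mem ((hu 2 _ hw7).2) (-1)))
      (zsmul_mem ((hv 2 _ hw8).1) (1)))
      (zsmul_mem ((hv 2 _ hw8).2) (-1)))
  apply tor (m := 4) (by
    have := mul_ne_zero h2 h2
    norm_num at this ⊢
    exact this)
  convert h using 1
  noncomm_ring

theorem r7 {s t u v : R} (h2 : (2 : K) ≠ 0)
    (hs : Lt N s) (ht : Lt N t) (hu : Lt N u) (hv : Lt N v)
    (hw1 : u * s + s * u ∈ N 2)
    (hw2 : u * u + s * s ∈ N 2)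
    (hw3 : v * t + t * v ∈ N 2)
    (hw4 : v * v + t * t ∈ N 2)
    (hw5 : t * s - s * t ∈ N 2)
    (hw6 : v * u - u * v ∈ N 2)
    (hw7 : v * s - s * v + 2 * s * u - 2 * t * v ∈ N 2)
    (hw8 : t * u - u * t + 2 * s * u + 2 * t * v ∈ N 2) :
    u * t * t - t * t * u ∈ N 3 := by
  have h := (add_mem (add_mem (add_mem (zsmul_mem ((hu 2 _ hw4).1) (1))
      (zsmul_mem ((hu 2 _ hw4).2) (-1)))
      (zsmul_mem ((hv 2 _ hw6).1) (1)))
      (zsmul_mem ((hv 2 _ hw6).2) (1)))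
  convert h using 1
  noncomm_ring

theorem s3u {s t u v : R} (h2 : (2 : K) ≠ 0)
    (hs : Lt N s) (ht : Lt N t) (hu : Lt N u) (hv : Lt N v)
    (hw1 : u * s + s * u ∈ N 2)
    (hw2 : u * u + s * s ∈ N 2)
    (hw3 : v * t + t * v ∈ N 2)
    (hw4 : v * v + t * t ∈ N 2)
    (hw5 : t * s - s * t ∈ N 2)
    (hw6 : v * u - u * v ∈ N 2)
    (hw7 : v * s - s * v + 2 * s * u - 2 * t * v ∈ N 2)
    (hw8 : t * u - u * t + 2 * s * u + 2 * t * v ∈ N 2) :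
    s * s * s * u ∈ N 4 := by
  have hr2 := r2 h2 hs ht hu hv hw1 hw2 hw3 hw4 hw5 hw6 hw7 hw8
  have hr3 := r3 h2 hs ht hu hv hw1 hw2 hw3 hw4 hw5 hw6 hw7 hw8
  have hr5 := r5 h2 hs ht hu hv hw1 hw2 hw3 hw4 hw5 hw6 hw7 hw8
  have hr6 := r6 h2 hs ht hu hv hw1 hw2 hw3 hw4 hw5 hw6 hw7 hw8
  have hr7 := r7 h2 hs ht hu hv hw1 hw2 hw3 hw4 hw5 hw6 hw7 hw8
  have h := (add_mem (add_mem (add_mem (add_mem (add_mem (add_mem (add_mem (add_mem (add_mem (add_mem (add_mem (add_mem (add_mem (add_mem (add_mem (add_mem (add_mem (add_mem (add_mem (add_mem (zsmul_mem ((ht 3 _ hr2).1) (-1))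
      (zsmul_mem ((hu 3 _ hr6).2) (1)))
      (zsmul_mem ((hv 3 _ hr5).2) (1)))
      (zsmul_mem ((hs 3 _ hr2).1) (2)))
      (zsmul_mem ((ht 3 _ hr3).1) (-1)))
      (zsmul_mem ((hs 3 _ hr3).1) (1)))
      (zsmul_mem ((hv 3 _ hr6).1) (-1)))
      (zsmul_mem ((ht 3 _ hr7).1) (1)))
      (zsmul_mem ((hs 3 _ hr7).1) (1)))
      (zsmul_mem ((hs 3 _ (hs 2 _ hw7).1).1) (1)))
      (zsmul_mem ((ht 3 _ (ht 2 _ hw3).2).1) (-1)))
      (zsmul_mem ((ht 3 _ (ht 2 _ hw3).1).1) (1)))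
      (zsmul_mem ((ht 3 _ (hu 2 _ hw4).1).1) (-1)))
      (zsmul_mem ((hv 3 _ (hs 2 _ hw2).2).1) (1)))
      (zsmul_mem ((hs 3 _ (hu 2 _ hw4).1).1) (-1)))
      (zsmul_mem ((ht 3 _ (ht 2 _ hw3).2).2) (1)))
      (zsmul_mem ((hv 3 _ (ht 2 _ hw5).2).2) (1)))
      (zsmul_mem ((hs 3 _ (hu 2 _ hw6).2).2) (-1)))
      (zsmul_mem ((hu 3 _ (ht 2 _ hw5).2).2) (-1)))
      (zsmul_mem ((hs 3 _ (hv 2 _ hw2).2).2) (-1)))
      (zsmul_mem ((hu 3 _ (hs 2 _ hw6).2).1) (-1)))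
  apply tor (m := 4) (by
    have := mul_ne_zero h2 h2
    norm_num at this ⊢
    exact this)
  convert h using 1
  noncomm_ring

end

end Pool.Agent.Zk77.SQ
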