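import Pool.Agent.Zk77.SQ.Alg

/-! The filtered ideal contains the generators. -/

set_option autoImplicit false
set_option linter.unusedSectionVars false
set_option linter.unusedVariables false

namespace Pool.Agent.Zk77.SQ

variable {K R : Type*} [Field K] [Ring R] [Algebra K R] {N : ℕ → Submodule K R}

theorem filt {s t u v : R} (h6 : (6 : K) ≠ 0) (mono : ∀ n {p : R}, p ∈ N n → p ∈ N (n + 1))
    (hs : Lt N s) (ht : Lt N t) (hu : Lt N u) (hv : Lt N v)
    (hw1 : u * s + s * u ∈ N 2) (hw2 : u * u + s * s ∈ N 2) (hw3 : v * t + t * v ∈ N 2)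
    (hw4 : v * v + t * t ∈ N 2) (hw5 : t * s - s * t - s + t ∈ N 2)
    (hw6 : v * u - u * v - s - t ∈ N 2)
    (hw7 : v * s - s * v - u + v + 2 * s * u - 2 * t * v ∈ N 2)
    (hw8 : t * u - u * t - u - v + 2 * s * u + 2 * t * v ∈ N 2) :
    s ∈ N 12 ∧ t ∈ N 12 ∧ u ∈ N 12 ∧ v ∈ N 12 := by
  have h2 : (2 : K) ≠ 0 := fun h => h6 (by rw [show (6 : K) = 2 * 3 by norm_num, h, zero_mul])
  have h3 : (3 : K) ≠ 0 := fun h => h6 (by rw [show (6 : K) = 2 * 3 by norm_num, h, mul_zero])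
  have hz := z3 h2 (fun n p hp => mono n hp) hs ht hu hv hw1 hw2 hw3 hw4 hw5 hw6 hw7 hw8
  obtain ⟨e, rfl⟩ : ∃ e, t = s + e := ⟨t - s, by abel⟩
  have he : Lt N e := by
    have := ht.sub hs
    rwa [add_sub_cancel_left] at this
  have hk : e * s - s * e + e ∈ N 2 := by
    convert hw5 using 1
    noncomm_ring
  have h2' : ((2 : ℕ) : K) ≠ 0 := by exact_mod_cast h2
  have h6' : ((6 : ℕ) : K) ≠ 0 := by exact_mod_cast h6
  have h12 : ((12 : ℕ) : K) ≠ 0 := by
    have := mul_ne_zero h2 h6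
    norm_num at this ⊢
    exact this
  have hP : 4 * s * s * s - 2 * s + 6 * s * s * e - 6 * s * e + e + 6 * s * e * e - 6 * e * e + 2 * e * e * e ∈ N 3 := by
    have h := (add_mem (add_mem (add_mem (add_mem (add_mem (zsmul_mem (hz) (1))
      (zsmul_mem ((mono 2 hk)) (2)))
      (zsmul_mem ((hs 2 _ hk).2) (-2)))
      (zsmul_mem ((he 2 _ hk).2) (-4)))
      (zsmul_mem ((hs 2 _ hk).1) (-4)))
      (zsmul_mem ((he 2 _ hk).1) (-2)))
    convert h using 1
    noncomm_ring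
  have hP2 : 6 * s * s * e - 6 * s * e + e + 6 * s * e * e - 6 * e * e + 3 * e * e * e ∈ N 4 := by
    have h := (add_mem (add_mem (add_mem (add_mem (add_mem (add_mem (add_mem (add_mem (add_mem (add_mem (add_mem (zsmul_mem ((he 3 _ hP).2) (1))
      (zsmul_mem ((he 3 _ hP).1) (-1)))
      (zsmul_mem ((mono 3 (mono 2 hk))) (2)))
      (zsmul_mem ((mono 3 (hs 2 _ hk).2)) (-4)))
      (zsmul_mem ((mono 3 (he 2 _ hk).2)) (-12)))
      (zsmul_mem ((mono 3 (hs 2 _ hk).1)) (-8)))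
      (zsmul_mem ((hs 3 _ (hs 2 _ hk).2).2) (4)))
      (zsmul_mem ((he 3 _ (hs 2 _ hk).2).2) (6)))
      (zsmul_mem ((he 3 _ (he 2 _ hk).2).2) (6)))
      (zsmul_mem ((hs 3 _ (hs 2 _ hk).2).1) (4)))
      (zsmul_mem ((hs 3 _ (he 2 _ hk).2).1) (6)))
      (zsmul_mem ((hs 3 _ (hs 2 _ hk).1).1) (4)))
    apply tor (m := 2) (h2')
    convert h using 1
    noncomm_ring
  have hP4 : e * e * e - 4 * s * s * s + 2 * s ∈ N 4 := by
    have h := (add_mem (zsmul_mem (hP2) (1))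
      (zsmul_mem ((mono 3 hP)) (-1)))
    convert h using 1
    noncomm_ring
  have hP5 : 6 * s * s * e - 6 * s * e + e ∈ N 5 := by
    have h := (add_mem (add_mem (add_mem (add_mem (add_mem (add_mem (add_mem (zsmul_mem ((he 4 _ hP4).2) (-1))
      (zsmul_mem ((he 4 _ hP4).1) (1)))
      (zsmul_mem ((mono 4 (mono 3 (mono 2 hk)))) (2)))
      (zsmul_mem ((mono 4 (mono 3 (hs 2 _ hk).2))) (-4)))
      (zsmul_mem ((mono 4 (mono 3 (hs 2 _ hk).1))) (-8)))
      (zsmul_mem ((mono 4 (hs 3 _ (hs 2 _ hk).2).2)) (4)))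
      (zsmul_mem ((mono 4 (hs 3 _ (hs 2 _ hk).2).1)) (4)))
      (zsmul_mem ((mono 4 (hs 3 _ (hs 2 _ hk).1).1)) (4)))
    apply tor (m := 2) (h2')
    convert h using 1
    noncomm_ring
  have hP6 : s * e * e - e * e ∈ N 6 := by
    have h := (add_mem (add_mem (add_mem (add_mem (zsmul_mem ((he 5 _ hP5).2) (1))
      (zsmul_mem ((he 5 _ hP5).1) (-1)))
      (zsmul_mem ((mono 5 (mono 4 (mono 3 (he 2 _ hk).2)))) (-12)))
      (zsmul_mem ((mono 5 (mono 4 (he 3 _ (hs 2 _ hk).2).2))) (6)))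
      (zsmul_mem ((mono 5 (mono 4 (hs 3 _ (he 2 _ hk).2).1))) (6)))
    apply tor (m := 12) (h12)
    convert h using 1
    noncomm_ring
  have hP7 : e * e * e ∈ N 7 := by
    have h := (add_mem (add_mem (zsmul_mem ((he 6 _ hP6).2) (1))
      (zsmul_mem ((he 6 _ hP6).1) (-1)))
      (zsmul_mem ((mono 6 (mono 5 (mono 4 (he 3 _ (he 2 _ hk).2).2)))) (1)))
    convert h using 1
    noncomm_ring
  have hP8 : 2 * s * s * s - s ∈ N 7 := by
    have h := (add_mem (zsmul_mem (hP7) (1))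
      (zsmul_mem ((mono 6 (mono 5 (mono 4 hP4)))) (-1)))
    apply tor (m := 2) (h2')
    convert h using 1
    noncomm_ring
  have hP9 : 2 * s * e - e ∈ N 8 := by
    have h := (add_mem (add_mem (zsmul_mem ((he 7 _ hP8).2) (3))
      (zsmul_mem ((mono 7 (mono 6 (mono 5 hP5)))) (-1)))
      (zsmul_mem ((mono 7 (mono 6 (hs 5 _ hP5).1))) (-1)))
    convert h using 1
    noncomm_ring
  have hP10 : e ∈ N 9 := by
    have h := (add_mem (add_mem (zsmul_mem ((mono 8 hP9)) (-3))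
      (zsmul_mem ((hs 8 _ hP9).1) (6)))
      (zsmul_mem ((mono 8 (mono 7 (mono 6 (mono 5 hP5))))) (-2)))
    convert h using 1
    noncomm_ring
  have hX1 : 2 * s * u - 4 * s * v - u + v ∈ N 10 := by
    have h := (add_mem (add_mem (add_mem (zsmul_mem ((hv 9 _ hP10).1) (1))
      (zsmul_mem ((hv 9 _ hP10).2) (3)))
      (zsmul_mem ((mono 9 (mono 8 (mono 7 (mono 6 (mono 5 (mono 4 (mono 3 (mono 2 hw3))))))))) (-1)))
      (zsmul_mem ((mono 9 (mono 8 (mono 7 (mono 6 (mono 5 (mono 4 (mono 3 (mono 2 hw7))))))))) (1)))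
    convert h using 1
    noncomm_ring
  have hX2 : 4 * s * u + 2 * s * v - u - v ∈ N 10 := by
    have h := (add_mem (add_mem (add_mem (add_mem (zsmul_mem ((hu 9 _ hP10).1) (1))
      (zsmul_mem ((hu 9 _ hP10).2) (-1)))
      (zsmul_mem ((hv 9 _ hP10).2) (-2)))
      (zsmul_mem ((mono 9 (mono 8 (mono 7 (mono 6 (mono 5 (mono 4 (mono 3 (mono 2 hw1))))))))) (1)))
      (zsmul_mem ((mono 9 (mono 8 (mono 7 (mono 6 (mono 5 (mono 4 (mono 3 (mono 2 hw8))))))))) (1)))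
    convert h using 1
    noncomm_ring
  have hA1 : 10 * s * u - 3 * u - v ∈ N 10 := by
    have h := (add_mem (zsmul_mem (hX1) (1))
      (zsmul_mem (hX2) (2)))
    convert h using 1
    noncomm_ring
  have hA2 : 10 * s * v + u - 3 * v ∈ N 10 := by
    have h := (add_mem (zsmul_mem (hX1) (-2))
      (zsmul_mem (hX2) (1)))
    convert h using 1
    noncomm_ring
  have huv : u * v ∈ N 11 := by
    have h := (add_mem (add_mem (add_mem (add_mem (add_mem (add_mem (add_mem (zsmul_mem ((mono 10 (hs 9 _ hP10).1)) (1))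
      (zsmul_mem ((mono 10 (hs 9 _ hP10).2)) (1)))
      (zsmul_mem ((mono 10 (he 9 _ hP10).1)) (1)))
      (zsmul_mem ((mono 10 (mono 9 (mono 8 (mono 7 (mono 6 (mono 5 (mono 4 (mono 3 (hv 2 _ hw1).2))))))))) (10)))
      (zsmul_mem ((mono 10 (mono 9 (mono 8 (mono 7 (mono 6 (mono 5 (mono 4 (mono 3 (mono 2 hw2)))))))))) (1)))
      (zsmul_mem ((mono 10 (mono 9 (mono 8 (mono 7 (mono 6 (mono 5 (mono 4 (mono 3 (mono 2 hw4)))))))))) (-1)))
      (zsmul_mem ((hv 10 _ hA1).2) (-1)))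
      (zsmul_mem ((hu 10 _ hA2).1) (-1)))
    apply tor (m := 6) (h6')
    convert h using 1
    noncomm_ring
  have hvu : v * u ∈ N 11 := by
    have h := (add_mem (add_mem (add_mem (add_mem (add_mem (add_mem (add_mem (add_mem (add_mem (zsmul_mem ((mono 10 (hs 9 _ hP10).1)) (1))
      (zsmul_mem ((mono 10 (hs 9 _ hP10).2)) (1)))
      (zsmul_mem ((mono 10 (he 9 _ hP10).1)) (1)))
      (zsmul_mem ((hv 10 _ (hu 9 _ hP10).2).1) (-10)))
      (zsmul_mem ((hu 10 _ (hv 9 _ hP10).2).2) (-10)))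
      (zsmul_mem ((mono 10 (mono 9 (mono 8 (mono 7 (mono 6 (mono 5 (mono 4 (mono 3 (mono 2 hw2)))))))))) (1)))
      (zsmul_mem ((mono 10 (mono 9 (mono 8 (mono 7 (mono 6 (mono 5 (mono 4 (mono 3 (hu 2 _ hw3).2))))))))) (10)))
      (zsmul_mem ((mono 10 (mono 9 (mono 8 (mono 7 (mono 6 (mono 5 (mono 4 (mono 3 (mono 2 hw4)))))))))) (-1)))
      (zsmul_mem ((hv 10 _ hA1).1) (-1)))
      (zsmul_mem ((hu 10 _ hA2).2) (-1)))
    apply tor (m := 6) (h6')
    convert h using 1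
    noncomm_ring
  have hs11 : s ∈ N 11 := by
    have h := (add_mem (add_mem (add_mem (zsmul_mem ((mono 10 (mono 9 (mono 8 (mono 7 (mono 6 (mono 5 (mono 4 (mono 3 (mono 2 hw6)))))))))) (-1))
      (zsmul_mem (huv) (-1)))
      (zsmul_mem (hvu) (1)))
      (zsmul_mem ((mono 10 (mono 9 hP10))) (-1)))
    apply tor (m := 2) (h2')
    convert h using 1
    noncomm_ring
  have hu12 : u ∈ N 12 := by
    have h := (add_mem (add_mem (add_mem (zsmul_mem ((mono 11 (mono 10 hX1))) (-1))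
      (zsmul_mem ((mono 11 (mono 10 hX2))) (-1)))
      (zsmul_mem ((hu 11 _ hs11).2) (6)))
      (zsmul_mem ((hv 11 _ hs11).2) (-2)))
    apply tor (m := 2) (h2')
    convert h using 1
    noncomm_ring
  have hv12 : v ∈ N 12 := by
    have h := (add_mem (add_mem (add_mem (zsmul_mem ((mono 11 (mono 10 hX1))) (1))
      (zsmul_mem ((mono 11 (mono 10 hX2))) (-1)))
      (zsmul_mem ((hu 11 _ hs11).2) (2)))
      (zsmul_mem ((hv 11 _ hs11).2) (6)))
    apply tor (m := 2) (h2')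
    convert h using 1
    noncomm_ring
  have ht12 : s + e ∈ N 12 := add_mem (mono 11 hs11) (mono 11 (mono 10 (mono 9 hP10)))
  exact ⟨mono 11 hs11, ht12, hu12, hv12⟩

end Pool.Agent.Zk77.SQ
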