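import Pool.Agent.Zk77.SQ.Main

set_option autoImplicit false

namespace Pool.Agent.Zk77.SQ

open Pool.Agent.Zk42.SQ

/-- FOUR over some prime field, in the form of `S_FIVE`. -/
theorem four5 : ∃ (l : ℕ) (_ : Fact l.Prime) (d D : ℕ) (L : Fin 4 → Fin 4 → ZMod l)
    (U : Fin 4 → ZMod l), 2 ≤ d ∧ 2 ≤ D ∧ Nil L d ∧ Triv L U D := by
  have h6 : (6 : ZMod 5) ≠ 0 := by decide
  have h5 : Fact (Nat.Prime 5) := ⟨by norm_num⟩
  have h := four (ZMod 5) (fun h => h6 h)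
  exact ⟨5, h5, 9, 19, _, _, by norm_num, by norm_num, h⟩

end Pool.Agent.Zk77.SQ
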