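import Pool.Agent.Zk77.SQ.Alg

/-! The graded ideal contains everything of degree nine. -/

set_option autoImplicit false
set_option linter.unusedSectionVars false
set_option linter.unusedVariables false

namespace Pool.Agent.Zk77.SQ

variable {K R : Type*} [Field K] [Ring R] [Algebra K R] {N : ℕ → Submodule K R}

theorem Lt.powl {s : R} (hs : Lt N s) (i : ℕ) : ∀ {n : ℕ} {p : R}, p ∈ N n → s ^ i * p ∈ N (n + i) := by
  induction i with
  | zero =>
    intro n p hp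
    rw [pow_zero, one_mul]
    exact hp
  | succ i ih =>
    intro n p hp
    rw [pow_succ', mul_assoc]
    exact (hs _ _ (ih hp)).1

theorem Lt.powr {s : R} (hs : Lt N s) (i : ℕ) : ∀ {n : ℕ} {p : R}, p ∈ N n → p * s ^ i ∈ N (n + i) := by
  induction i with
  | zero =>
    intro n p hp
    rw [pow_zero, mul_one]
    exact hp
  | succ i ih =>
    intro n p hp
    rw [pow_succ, ← mul_assoc]
    exact (hs _ _ (ih hp)).2

/-- the monomials in `s` and `t` -/
def mon (s t : R) (i j : ℕ) : R := s ^ i * t ^ j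

theorem mon_t (s t : R) (i j : ℕ) : mon s t i j * t = mon s t i (j + 1) := by
  unfold mon
  rw [pow_succ, mul_assoc]

theorem mon_N {s t : R} (hs : Lt N s) (ht : Lt N t) (i j : ℕ) {n : ℕ} {p : R} (hp : p ∈ N n) :
    mon s t i j * p ∈ N (n + (i + j)) := by
  unfold mon
  rw [mul_assoc]
  have := hs.powl i (ht.powl j hp)
  rwa [show n + j + i = n + (i + j) by omega] at this

theorem comm_pow {s t : R} (hs : Lt N s) (ht : Lt N t) (hw5 : t * s - s * t ∈ N 2) (j : ℕ) :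
    t ^ j * s - s * t ^ j ∈ N (j + 1) := by
  induction j with
  | zero =>
    have : t ^ 0 * s - s * t ^ 0 = 0 := by rw [pow_zero, one_mul, mul_one, sub_self]
    rw [this]
    exact zero_mem _
  | succ j ih =>
    have h1 := add_mem (ht _ _ ih).1 (by
      have := ht.powr j hw5
      rwa [show 2 + j = j + 1 + 1 by omega] at this : (t * s - s * t) * t ^ j ∈ N (j + 1 + 1))
    convert h1 using 1
    rw [pow_succ']
    noncomm_ring

theorem mon_s {s t : R} (hs : Lt N s) (ht : Lt N t) (hw5 : t * s - s * t ∈ N 2) (i j : ℕ) :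
    mon s t i j * s - mon s t (i + 1) j ∈ N (i + j + 1) := by
  have h := hs.powl i (comm_pow hs ht hw5 j)
  rw [show j + 1 + i = i + j + 1 by omega] at h
  convert h using 1
  unfold mon
  rw [pow_succ, mul_sub, mul_assoc, mul_assoc]

/-- normal forms without `u * v` -/
def G1 (s t u v : R) (k : ℕ) : Set R := {p | ∃ i j, (i + j = k ∧ p = mon s t i j) ∨
  (i + j + 1 = k ∧ p = mon s t i j * u) ∨ (i + j + 1 = k ∧ p = mon s t i j * v)}

/-- normal forms with `u * v` -/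
def G2 (s t u v : R) (k : ℕ) : Set R := {p | ∃ i j, i + j + 2 = k ∧ p = mon s t i j * u * v}

variable (N)

/-- the span of the first normal forms -/
def S1 (s t u v : R) (k : ℕ) : Submodule K R := Submodule.span K (G1 s t u v k) ⊔ N k

/-- the span of all normal forms -/
def S2 (s t u v : R) (k : ℕ) : Submodule K R := Submodule.span K (G2 s t u v k) ⊔ S1 N s t u v k

variable {N}

section
variable {s t u v : R}

theorem N_S1 {k : ℕ} {p : R} (hp : p ∈ N k) : p ∈ S1 N s t u v k :=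
  (le_sup_right : N k ≤ S1 N s t u v k) hp

theorem S1_S2 {k : ℕ} {p : R} (hp : p ∈ S1 N s t u v k) : p ∈ S2 N s t u v k :=
  (le_sup_right : S1 N s t u v k ≤ S2 N s t u v k) hp

theorem g0 (i j k : ℕ) (h : i + j = k) : mon s t i j ∈ S1 N s t u v k :=
  (le_sup_left : _ ≤ S1 N s t u v k) (Submodule.subset_span ⟨i, j, Or.inl ⟨h, rfl⟩⟩)

theorem gu (i j k : ℕ) (h : i + j + 1 = k) : mon s t i j * u ∈ S1 N s t u v k :=
  (le_sup_left : _ ≤ S1 N s t u v k) (Submodule.subset_span ⟨i, j, Or.inr (Or.inl ⟨h, rfl⟩)⟩)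

theorem gv (i j k : ℕ) (h : i + j + 1 = k) : mon s t i j * v ∈ S1 N s t u v k :=
  (le_sup_left : _ ≤ S1 N s t u v k) (Submodule.subset_span ⟨i, j, Or.inr (Or.inr ⟨h, rfl⟩)⟩)

theorem guv (i j k : ℕ) (h : i + j + 2 = k) : mon s t i j * u * v ∈ S2 N s t u v k :=
  (le_sup_left : _ ≤ S2 N s t u v k) (Submodule.subset_span ⟨i, j, h, rfl⟩)

variable (hs : Lt N s) (ht : Lt N t) (hu : Lt N u) (hv : Lt N v)
  (hw1 : u * s + s * u ∈ N 2) (hw2 : u * u + s * s ∈ N 2) (hw3 : v * t + t * v ∈ N 2)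
  (hw4 : v * v + t * t ∈ N 2) (hw5 : t * s - s * t ∈ N 2) (hw6 : v * u - u * v ∈ N 2)
  (hw7 : v * s - s * v + 2 * s * u - 2 * t * v ∈ N 2)
  (hw8 : t * u - u * t + 2 * s * u + 2 * t * v ∈ N 2)
include hs ht hu hv hw1 hw2 hw3 hw4 hw5 hw6 hw7 hw8

theorem mons (i j k : ℕ) (h : i + j + 1 = k) : mon s t i j * s ∈ S1 N s t u v k := by
  subst h
  have := add_mem (N_S1 (s := s) (t := t) (u := u) (v := v) (mon_s hs ht hw5 i j))
    (g0 (N := N) (u := u) (v := v) (i + 1) j (i + j + 1) (by omega))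
  rwa [sub_add_cancel] at this

theorem mus (i j k : ℕ) (h : i + j + 2 = k) : mon s t i j * u * s ∈ S1 N s t u v k := by
  subst h
  have h1 := N_S1 (s := s) (t := t) (u := u) (v := v) (mon_N hs ht i j hw1)
  rw [show 2 + (i + j) = i + j + 2 by omega] at h1
  have h2 := N_S1 (s := s) (t := t) (u := u) (v := v) (hu _ _ (mon_s hs ht hw5 i j)).2
  have h3 := gu (N := N) (s := s) (t := t) (u := u) (v := v) (i + 1) j (i + j + 2) (by omega)
  have h := sub_mem (sub_mem h1 h2) h3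
  convert h using 1
  noncomm_ring

theorem mult (i j k : ℕ) (h : i + j + 2 = k) : mon s t i j * u * t ∈ S1 N s t u v k := by
  subst h
  have h1 := N_S1 (s := s) (t := t) (u := u) (v := v) (mon_N hs ht i j hw8)
  rw [show 2 + (i + j) = i + j + 2 by omega] at h1
  have h2 := N_S1 (s := s) (t := t) (u := u) (v := v) (hu _ _ (mon_s hs ht hw5 i j)).2
  have h3 := gu (N := N) (s := s) (t := t) (u := u) (v := v) (i + 1) j (i + j + 2) (by omega)
  have h4 := gu (N := N) (s := s) (t := t) (u := u) (v := v) i (j + 1) (i + j + 2) (by omega)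
  have h5 := gv (N := N) (s := s) (t := t) (u := u) (v := v) i (j + 1) (i + j + 2) (by omega)
  rw [← mon_t] at h4 h5
  have h := add_mem (add_mem (sub_mem h4 h1) (zsmul_mem (add_mem h2 h3) 2)) (zsmul_mem h5 2)
  convert h using 1
  noncomm_ring

theorem mvs (i j k : ℕ) (h : i + j + 2 = k) : mon s t i j * v * s ∈ S1 N s t u v k := by
  subst h
  have h1 := N_S1 (s := s) (t := t) (u := u) (v := v) (mon_N hs ht i j hw7)
  rw [show 2 + (i + j) = i + j + 2 by omega] at h1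
  have h2 := N_S1 (s := s) (t := t) (u := u) (v := v) (hu _ _ (mon_s hs ht hw5 i j)).2
  have h2' := N_S1 (s := s) (t := t) (u := u) (v := v) (hv _ _ (mon_s hs ht hw5 i j)).2
  have h3 := gu (N := N) (s := s) (t := t) (u := u) (v := v) (i + 1) j (i + j + 2) (by omega)
  have h3' := gv (N := N) (s := s) (t := t) (u := u) (v := v) (i + 1) j (i + j + 2) (by omega)
  have h5 := gv (N := N) (s := s) (t := t) (u := u) (v := v) i (j + 1) (i + j + 2) (by omega)
  rw [← mon_t] at h5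
  have h := add_mem (sub_mem (add_mem h1 (add_mem h2' h3')) (zsmul_mem (add_mem h2 h3) 2))
    (zsmul_mem h5 2)
  convert h using 1
  noncomm_ring

theorem mvt (i j k : ℕ) (h : i + j + 2 = k) : mon s t i j * v * t ∈ S1 N s t u v k := by
  subst h
  have h1 := N_S1 (s := s) (t := t) (u := u) (v := v) (mon_N hs ht i j hw3)
  rw [show 2 + (i + j) = i + j + 2 by omega] at h1
  have h5 := gv (N := N) (s := s) (t := t) (u := u) (v := v) i (j + 1) (i + j + 2) (by omega)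
  rw [← mon_t] at h5
  have h := sub_mem h1 h5
  convert h using 1
  noncomm_ring

theorem muu (i j k : ℕ) (h : i + j + 2 = k) : mon s t i j * u * u ∈ S1 N s t u v k := by
  subst h
  have h1 := N_S1 (s := s) (t := t) (u := u) (v := v) (mon_N hs ht i j hw2)
  rw [show 2 + (i + j) = i + j + 2 by omega] at h1
  have h2 := N_S1 (s := s) (t := t) (u := u) (v := v) (hs _ _ (mon_s hs ht hw5 i j)).2
  have h3 := mons hs ht hu hv hw1 hw2 hw3 hw4 hw5 hw6 hw7 hw8 (i + 1) j (i + j + 2) (by omega)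
  have h := sub_mem (sub_mem h1 h2) h3
  convert h using 1
  noncomm_ring

theorem mvv (i j k : ℕ) (h : i + j + 2 = k) : mon s t i j * v * v ∈ S1 N s t u v k := by
  subst h
  have h1 := N_S1 (s := s) (t := t) (u := u) (v := v) (mon_N hs ht i j hw4)
  rw [show 2 + (i + j) = i + j + 2 by omega] at h1
  have h3 := g0 (N := N) (s := s) (t := t) (u := u) (v := v) i (j + 2) (i + j + 2) (by omega)
  rw [show mon s t i (j + 2) = mon s t i j * t * t by rw [mon_t, mon_t]] at h3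
  have h := sub_mem h1 h3
  convert h using 1
  noncomm_ring

theorem mvu (i j k : ℕ) (h : i + j + 2 = k) : mon s t i j * v * u ∈ S2 N s t u v k := by
  subst h
  have h1 := S1_S2 (N_S1 (s := s) (t := t) (u := u) (v := v) (mon_N hs ht i j hw6))
  rw [show 2 + (i + j) = i + j + 2 by omega] at h1
  have h3 := guv (N := N) (s := s) (t := t) (u := u) (v := v) i j (i + j + 2) rfl
  have h := add_mem h1 h3
  convert h using 1
  noncomm_ring

/-- a submodule is mapped into another one by the right multiplication -/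
theorem S1_lift (y : R) (k : ℕ) (M : Submodule K R) (hy : Lt N y) (hN : N (k + 1) ≤ M)
    (hg : ∀ p ∈ G1 s t u v k, p * y ∈ M) : ∀ p ∈ S1 N s t u v k, p * y ∈ M := by
  have : S1 N s t u v k ≤ M.comap (LinearMap.mulRight K y) := by
    refine sup_le (Submodule.span_le.mpr fun p hp => hg p hp) fun p hp => ?_
    exact hN (hy _ _ hp).2
  exact fun p hp => this hp

theorem S1s (k : ℕ) : ∀ p ∈ S1 N s t u v k, p * s ∈ S1 N s t u v (k + 1) := by
  refine S1_lift hs ht hu hv hw1 hw2 hw3 hw4 hw5 hw6 hw7 hw8 s k _ hs le_sup_right ?_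
  rintro p ⟨i, j, ⟨h, rfl⟩ | ⟨h, rfl⟩ | ⟨h, rfl⟩⟩
  · exact mons hs ht hu hv hw1 hw2 hw3 hw4 hw5 hw6 hw7 hw8 i j _ (by omega)
  · exact mus hs ht hu hv hw1 hw2 hw3 hw4 hw5 hw6 hw7 hw8 i j _ (by omega)
  · exact mvs hs ht hu hv hw1 hw2 hw3 hw4 hw5 hw6 hw7 hw8 i j _ (by omega)

theorem S1t (k : ℕ) : ∀ p ∈ S1 N s t u v k, p * t ∈ S1 N s t u v (k + 1) := by
  refine S1_lift hs ht hu hv hw1 hw2 hw3 hw4 hw5 hw6 hw7 hw8 t k _ ht le_sup_right ?_
  rintro p ⟨i, j, ⟨h, rfl⟩ | ⟨h, rfl⟩ | ⟨h, rfl⟩⟩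
  · rw [mon_t]
    exact g0 i (j + 1) _ (by omega)
  · exact mult hs ht hu hv hw1 hw2 hw3 hw4 hw5 hw6 hw7 hw8 i j _ (by omega)
  · exact mvt hs ht hu hv hw1 hw2 hw3 hw4 hw5 hw6 hw7 hw8 i j _ (by omega)

theorem S1u (k : ℕ) : ∀ p ∈ S1 N s t u v k, p * u ∈ S2 N s t u v (k + 1) := by
  refine S1_lift hs ht hu hv hw1 hw2 hw3 hw4 hw5 hw6 hw7 hw8 u k _ hu
    (le_sup_right.trans le_sup_right) ?_
  rintro p ⟨i, j, ⟨h, rfl⟩ | ⟨h, rfl⟩ | ⟨h, rfl⟩⟩
  · exact S1_S2 (gu i j _ (by omega))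
  · exact S1_S2 (muu hs ht hu hv hw1 hw2 hw3 hw4 hw5 hw6 hw7 hw8 i j _ (by omega))
  · exact mvu hs ht hu hv hw1 hw2 hw3 hw4 hw5 hw6 hw7 hw8 i j _ (by omega)

theorem S1v (k : ℕ) : ∀ p ∈ S1 N s t u v k, p * v ∈ S2 N s t u v (k + 1) := by
  refine S1_lift hs ht hu hv hw1 hw2 hw3 hw4 hw5 hw6 hw7 hw8 v k _ hv
    (le_sup_right.trans le_sup_right) ?_
  rintro p ⟨i, j, ⟨h, rfl⟩ | ⟨h, rfl⟩ | ⟨h, rfl⟩⟩
  · exact S1_S2 (gv i j _ (by omega))
  · exact guv i j _ (by omega)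
  · exact S1_S2 (mvv hs ht hu hv hw1 hw2 hw3 hw4 hw5 hw6 hw7 hw8 i j _ (by omega))

theorem S2_lift (y : R) (k : ℕ) (h1 : ∀ p ∈ S1 N s t u v k, p * y ∈ S2 N s t u v (k + 1))
    (hg : ∀ i j, i + j + 2 = k → mon s t i j * u * v * y ∈ S2 N s t u v (k + 1)) :
    ∀ p ∈ S2 N s t u v k, p * y ∈ S2 N s t u v (k + 1) := by
  have : S2 N s t u v k ≤ (S2 N s t u v (k + 1)).comap (LinearMap.mulRight K y) := by
    refine sup_le (Submodule.span_le.mpr ?_) fun p hp => h1 p hp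
    rintro p ⟨i, j, h, rfl⟩
    exact hg i j h
  exact fun p hp => this hp

theorem S2s (k : ℕ) : ∀ p ∈ S2 N s t u v k, p * s ∈ S2 N s t u v (k + 1) := by
  refine S2_lift hs ht hu hv hw1 hw2 hw3 hw4 hw5 hw6 hw7 hw8 s k (fun p hp => S1_S2
    (S1s hs ht hu hv hw1 hw2 hw3 hw4 hw5 hw6 hw7 hw8 k p hp)) ?_
  rintro i j rfl
  have e := S1_S2 (N_S1 (s := s) (t := t) (u := u) (v := v) (mon_N hs ht i j (hu _ _ hw7).1))
  rw [show 2 + 1 + (i + j) = i + j + 2 + 1 by omega] at e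
  have a1 := mus hs ht hu hv hw1 hw2 hw3 hw4 hw5 hw6 hw7 hw8 i j _ rfl
  have a2 := mult hs ht hu hv hw1 hw2 hw3 hw4 hw5 hw6 hw7 hw8 i j _ rfl
  have b1 := S1v hs ht hu hv hw1 hw2 hw3 hw4 hw5 hw6 hw7 hw8 _ _ a1
  have b2 := S1u hs ht hu hv hw1 hw2 hw3 hw4 hw5 hw6 hw7 hw8 _ _ a1
  have b3 := S1v hs ht hu hv hw1 hw2 hw3 hw4 hw5 hw6 hw7 hw8 _ _ a2
  have h := add_mem (sub_mem (add_mem e b1) (zsmul_mem b2 2)) (zsmul_mem b3 2)
  convert h using 1
  noncomm_ring

theorem S2t (k : ℕ) : ∀ p ∈ S2 N s t u v k, p * t ∈ S2 N s t u v (k + 1) := by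
  refine S2_lift hs ht hu hv hw1 hw2 hw3 hw4 hw5 hw6 hw7 hw8 t k (fun p hp => S1_S2
    (S1t hs ht hu hv hw1 hw2 hw3 hw4 hw5 hw6 hw7 hw8 k p hp)) ?_
  rintro i j rfl
  have e := S1_S2 (N_S1 (s := s) (t := t) (u := u) (v := v) (mon_N hs ht i j (hu _ _ hw3).1))
  rw [show 2 + 1 + (i + j) = i + j + 2 + 1 by omega] at e
  have a2 := mult hs ht hu hv hw1 hw2 hw3 hw4 hw5 hw6 hw7 hw8 i j _ rfl
  have b3 := S1v hs ht hu hv hw1 hw2 hw3 hw4 hw5 hw6 hw7 hw8 _ _ a2
  have h := sub_mem e b3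
  convert h using 1
  noncomm_ring

theorem S2u (k : ℕ) : ∀ p ∈ S2 N s t u v k, p * u ∈ S2 N s t u v (k + 1) := by
  refine S2_lift hs ht hu hv hw1 hw2 hw3 hw4 hw5 hw6 hw7 hw8 u k
    (S1u hs ht hu hv hw1 hw2 hw3 hw4 hw5 hw6 hw7 hw8 k) ?_
  rintro i j rfl
  have e := S1_S2 (N_S1 (s := s) (t := t) (u := u) (v := v) (mon_N hs ht i j (hu _ _ hw6).1))
  rw [show 2 + 1 + (i + j) = i + j + 2 + 1 by omega] at e
  have a2 := muu hs ht hu hv hw1 hw2 hw3 hw4 hw5 hw6 hw7 hw8 i j _ rfl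
  have b3 := S1v hs ht hu hv hw1 hw2 hw3 hw4 hw5 hw6 hw7 hw8 _ _ a2
  have h := add_mem e b3
  convert h using 1
  noncomm_ring

theorem S2v (k : ℕ) : ∀ p ∈ S2 N s t u v k, p * v ∈ S2 N s t u v (k + 1) := by
  refine S2_lift hs ht hu hv hw1 hw2 hw3 hw4 hw5 hw6 hw7 hw8 v k
    (S1v hs ht hu hv hw1 hw2 hw3 hw4 hw5 hw6 hw7 hw8 k) ?_
  rintro i j rfl
  have e := S1_S2 (N_S1 (s := s) (t := t) (u := u) (v := v) (mon_N hs ht i j (hu _ _ hw4).1))
  rw [show 2 + 1 + (i + j) = i + j + 2 + 1 by omega] at e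
  have a2 := mult hs ht hu hv hw1 hw2 hw3 hw4 hw5 hw6 hw7 hw8 i j _ rfl
  have b3 := S1_S2 (S1t hs ht hu hv hw1 hw2 hw3 hw4 hw5 hw6 hw7 hw8 _ _ a2)
  have h := sub_mem e b3
  convert h using 1
  noncomm_ring

theorem monN (h2 : (2 : K) ≠ 0) (j : ℕ) : ∀ i, 7 ≤ i + j → mon s t i j ∈ N (i + j) := by
  have h3u := s3u h2 hs ht hu hv hw1 hw2 hw3 hw4 hw5 hw6 hw7 hw8
  have h5 : s * s * s * s * s ∈ N 5 := by
    have h := sub_mem (hs _ _ (hs _ _ (hs _ _ hw2).1).1).1 (hu _ _ h3u).2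
    convert h using 1
    noncomm_ring
  have ht3 := r6 h2 hs ht hu hv hw1 hw2 hw3 hw4 hw5 hw6 hw7 hw8
  induction j using Nat.strong_induction_on with
  | _ j ih =>
    intro i hij
    by_cases hj : j < 3
    · obtain ⟨i', rfl⟩ : ∃ i', i = i' + 5 := ⟨i - 5, by omega⟩
      have h := ht.powr j (hs.powl i' h5)
      rw [show 5 + i' + j = i' + 5 + j by omega] at h
      convert h using 1
      unfold mon
      rw [pow_add]
      congr 2
      noncomm_ring
    · obtain ⟨j', rfl⟩ : ∃ j', j = j' + 3 := ⟨j - 3, by omega⟩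
      have h := ht.powr j' (hs.powl i ht3)
      rw [show 3 + i + j' = i + (j' + 3) by omega] at h
      have h' := ih j' (by omega) (i + 3) (by omega)
      rw [show i + 3 + j' = i + (j' + 3) by omega] at h'
      have h'' := sub_mem h h'
      convert h'' using 1
      unfold mon
      rw [show j' + 3 = 3 + j' by omega, pow_add t, pow_add s]
      noncomm_ring

theorem S2_top (h2 : (2 : K) ≠ 0) : S2 N s t u v 9 ≤ N 9 := by
  have hm := monN hs ht hu hv hw1 hw2 hw3 hw4 hw5 hw6 hw7 hw8 h2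
  refine sup_le (Submodule.span_le.mpr ?_) (sup_le (Submodule.span_le.mpr ?_) le_rfl)
  · rintro p ⟨i, j, h, rfl⟩
    have := (hv _ _ (hu _ _ (hm j i (by omega))).2).2
    rwa [show i + j + 1 + 1 = 9 by omega] at this
  · rintro p ⟨i, j, ⟨h, rfl⟩ | ⟨h, rfl⟩ | ⟨h, rfl⟩⟩
    · have := hm j i (by omega)
      rwa [h] at this
    · have := (hu _ _ (hm j i (by omega))).2
      rwa [h] at this
    · have := (hv _ _ (hm j i (by omega))).2
      rwa [h] at this

/-- all products of nine of the elements are in the ideal -/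
theorem pbw (h2 : (2 : K) ≠ 0) (ι : Type) (x : ι → R) (hx : ∀ i, x i ∈ Submodule.span K {s, t, u, v})
    (w : List ι) (hw : w.length = 9) : (w.map x).prod ∈ N 9 := by
  have key : ∀ (y : R), y ∈ Submodule.span K {s, t, u, v} → ∀ k p, p ∈ S2 N s t u v k →
      p * y ∈ S2 N s t u v (k + 1) := by
    intro y hy k p hp
    have : Submodule.span K {s, t, u, v} ≤ (S2 N s t u v (k + 1)).comap (LinearMap.mulLeft K p) := by
      rw [Submodule.span_le]
      rintro z (rfl | rfl | rfl | rfl)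
      · exact S2s hs ht hu hv hw1 hw2 hw3 hw4 hw5 hw6 hw7 hw8 k p hp
      · exact S2t hs ht hu hv hw1 hw2 hw3 hw4 hw5 hw6 hw7 hw8 k p hp
      · exact S2u hs ht hu hv hw1 hw2 hw3 hw4 hw5 hw6 hw7 hw8 k p hp
      · exact S2v hs ht hu hv hw1 hw2 hw3 hw4 hw5 hw6 hw7 hw8 k p hp
    exact this hy
  have main : ∀ (w : List ι) (k : ℕ) (p : R), p ∈ S2 N s t u v k →
      p * (w.map x).prod ∈ S2 N s t u v (k + w.length) := by
    intro w
    induction w with
    | nil =>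
      intro k p hp
      simpa using hp
    | cons i w ih =>
      intro k p hp
      rw [List.map_cons, List.prod_cons, ← mul_assoc, List.length_cons]
      have := ih (k + 1) _ (key _ (hx i) k p hp)
      rwa [show k + 1 + w.length = k + (w.length + 1) by omega] at this
  have h1 := main w 0 1 (S1_S2 (by
    have := g0 (N := N) (s := s) (t := t) (u := u) (v := v) 0 0 0 rfl
    unfold mon at this
    rwa [pow_zero, pow_zero, mul_one] at this))
  rw [one_mul, zero_add, hw] at h1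
  exact S2_top hs ht hu hv hw1 hw2 hw3 hw4 hw5 hw6 hw7 hw8 h2 h1

end

end Pool.Agent.Zk77.SQ
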