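import Pool.Agent.Zk42.SQ.Stm
import Pool.Agent.Zk77.SQ.Filt
import Pool.Agent.Zk77.SQ.Pbw

/-! The special point for four generators: `Nil L 9` and `Triv L 1 19` over every field in which
`6 ≠ 0`. -/

set_option autoImplicit false

namespace Pool.Agent.Zk77.SQ

open Pool.Agent.Zk42.SQ

section
variable {K R : Type*} [Field K] [Ring R] [Algebra K R] {N : ℕ → Submodule K R}

/-- half -/
theorem half {R : Type*} [AddCommGroup R] [Module K R] (h2 : (2 : K) ≠ 0) (x : R) (M : Submodule K R)
    (h : x + x ∈ M) : x ∈ M := by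
  have := M.smul_mem (2 : K)⁻¹ h
  rwa [← two_smul K x, smul_smul, inv_mul_cancel₀ h2, one_smul] at this

theorem mem4 (h2 : (2 : K) ≠ 0) (x : Fin 4 → R) (M : Submodule K R) (ks : x 0 + x 2 ∈ M)
    (kt : x 1 + x 3 ∈ M) (ku : x 0 - x 2 ∈ M) (kv : x 1 - x 3 ∈ M) (i : Fin 4) : x i ∈ M := by
  have k0 : x 0 ∈ M := by
    refine half h2 _ _ ?_
    convert add_mem ks ku using 1
    abel
  have k1 : x 1 ∈ M := by
    refine half h2 _ _ ?_
    convert add_mem kt kv using 1
    abel
  have k2 : x 2 ∈ M := by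
    refine half h2 _ _ ?_
    convert sub_mem ks ku using 1
    abel
  have k3 : x 3 ∈ M := by
    refine half h2 _ _ ?_
    convert sub_mem kt kv using 1
    abel
  fin_cases i
  · exact k0
  · exact k1
  · exact k2
  · exact k3

theorem pbw4 (x : Fin 4 → R) (lt : ∀ i, Lt N (x i)) (q : ∀ i, x i * x i ∈ N 2)
    (e0 : x 1 * x 0 + x 2 * x 0 - x 0 * x 1 - x 0 * x 2 ∈ N 2)
    (e1 : x 2 * x 1 + x 3 * x 1 - x 1 * x 2 - x 1 * x 3 ∈ N 2)
    (e2 : x 3 * x 2 + x 0 * x 2 - x 2 * x 3 - x 2 * x 0 ∈ N 2)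
    (e3 : x 0 * x 3 + x 1 * x 3 - x 3 * x 0 - x 3 * x 1 ∈ N 2)
    (h2 : (2 : K) ≠ 0) (w : List (Fin 4)) (hw : w.length = 9) : (w.map x).prod ∈ N 9 :=
  pbw (N := N) (s := x 0 + x 2) (t := x 1 + x 3) (u := x 0 - x 2)
    (v := x 1 - x 3) ((lt 0).add (lt 2)) ((lt 1).add (lt 3)) ((lt 0).sub (lt 2))
    ((lt 1).sub (lt 3))
    (by
      convert sub_mem (zsmul_mem (q 0) 2) (zsmul_mem (q 2) 2) using 1
      noncomm_ring)
    (by
      convert add_mem (zsmul_mem (q 0) 2) (zsmul_mem (q 2) 2) using 1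
      noncomm_ring)
    (by
      convert sub_mem (zsmul_mem (q 1) 2) (zsmul_mem (q 3) 2) using 1
      noncomm_ring)
    (by
      convert add_mem (zsmul_mem (q 1) 2) (zsmul_mem (q 3) 2) using 1
      noncomm_ring)
    (by
      convert sub_mem (add_mem e0 e2) (add_mem e1 e3) using 1
      noncomm_ring)
    (by
      convert add_mem (add_mem e0 e2) (add_mem e1 e3) using 1
      noncomm_ring)
    (by
      convert add_mem (sub_mem (sub_mem (add_mem (sub_mem (sub_mem e0 e2) (sub_mem e1 e3))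
        (zsmul_mem (q 0) 2)) (zsmul_mem (q 2) 2)) (zsmul_mem (q 1) 2)) (zsmul_mem (q 3) 2) using 1
      noncomm_ring)
    (by
      convert sub_mem (add_mem (sub_mem (add_mem (add_mem (sub_mem e0 e2) (sub_mem e1 e3))
        (zsmul_mem (q 0) 2)) (zsmul_mem (q 2) 2)) (zsmul_mem (q 1) 2)) (zsmul_mem (q 3) 2) using 1
      noncomm_ring)
    h2 (Fin 4) x (mem4 h2 x _ (Submodule.subset_span (by simp)) (Submodule.subset_span (by simp))
      (Submodule.subset_span (by simp)) (Submodule.subset_span (by simp))) w hw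

theorem filt4 (x : Fin 4 → R) (h6 : (6 : K) ≠ 0) (mono : ∀ n {p : R}, p ∈ N n → p ∈ N (n + 1))
    (lt : ∀ i, Lt N (x i)) (q : ∀ i, x i * x i ∈ N 2)
    (e0 : x 1 * x 0 + x 2 * x 0 - x 0 * x 1 - x 0 * x 2 - x 0 ∈ N 2)
    (e1 : x 2 * x 1 + x 3 * x 1 - x 1 * x 2 - x 1 * x 3 - x 1 ∈ N 2)
    (e2 : x 3 * x 2 + x 0 * x 2 - x 2 * x 3 - x 2 * x 0 - x 2 ∈ N 2)
    (e3 : x 0 * x 3 + x 1 * x 3 - x 3 * x 0 - x 3 * x 1 - x 3 ∈ N 2) (i : Fin 4) : x i ∈ N 12 := by
  have h2 : (2 : K) ≠ 0 := fun h => h6 (by rw [show (6 : K) = 2 * 3 by norm_num, h, zero_mul])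
  obtain ⟨ks, kt, ku, kv⟩ := filt (N := N) (s := x 0 + x 2) (t := x 1 + x 3) (u := x 0 - x 2)
    (v := x 1 - x 3) h6 mono ((lt 0).add (lt 2)) ((lt 1).add (lt 3)) ((lt 0).sub (lt 2))
    ((lt 1).sub (lt 3))
    (by
      convert sub_mem (zsmul_mem (q 0) 2) (zsmul_mem (q 2) 2) using 1
      noncomm_ring)
    (by
      convert add_mem (zsmul_mem (q 0) 2) (zsmul_mem (q 2) 2) using 1
      noncomm_ring)
    (by
      convert sub_mem (zsmul_mem (q 1) 2) (zsmul_mem (q 3) 2) using 1
      noncomm_ring)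
    (by
      convert add_mem (zsmul_mem (q 1) 2) (zsmul_mem (q 3) 2) using 1
      noncomm_ring)
    (by
      convert sub_mem (add_mem e0 e2) (add_mem e1 e3) using 1
      noncomm_ring)
    (by
      convert add_mem (add_mem e0 e2) (add_mem e1 e3) using 1
      noncomm_ring)
    (by
      convert add_mem (sub_mem (sub_mem (add_mem (sub_mem (sub_mem e0 e2) (sub_mem e1 e3))
        (zsmul_mem (q 0) 2)) (zsmul_mem (q 2) 2)) (zsmul_mem (q 1) 2)) (zsmul_mem (q 3) 2) using 1
      noncomm_ring)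
    (by
      convert sub_mem (add_mem (sub_mem (add_mem (add_mem (sub_mem e0 e2) (sub_mem e1 e3))
        (zsmul_mem (q 0) 2)) (zsmul_mem (q 2) 2)) (zsmul_mem (q 1) 2)) (zsmul_mem (q 3) 2) using 1
      noncomm_ring)
  exact mem4 h2 x _ ks kt ku kv i

end

variable {K : Type} [Field K]

/-- reading a letter at the end -/
def X (i : Fin 4) : Module.End K (List (Fin 4) → K) := LinearMap.funLeft K K fun w => w ++ [i]

theorem X_apply (i : Fin 4) (g : List (Fin 4) → K) (w : List (Fin 4)) :
    (X i : Module.End K (List (Fin 4) → K)) g w = g (w ++ [i]) := rfl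

theorem word_apply (b : List (Fin 4)) : ∀ (g : List (Fin 4) → K) (w : List (Fin 4)),
    ((b.map X).prod : Module.End K (List (Fin 4) → K)) g w = g (w ++ b) := by
  induction b with
  | nil =>
    intro g w
    rw [List.map_nil, List.prod_nil, List.append_nil]
    rfl
  | cons i b ih =>
    intro g w
    rw [List.map_cons, List.prod_cons, Module.End.mul_apply, X_apply, ih, List.append_assoc]
    rfl

/-- the elements that vanish under `f` in all contexts of allowed total length -/
def NS (f : List (Fin 4) → K) (P : ℕ → Prop) (n : ℕ) :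
    Submodule K (Module.End K (List (Fin 4) → K)) where
  carrier := {p | ∀ a b : List (Fin 4), P (a.length + b.length + n) →
    p (((b.map X).prod : Module.End K (List (Fin 4) → K)) f) a = 0}
  zero_mem' := fun _ _ _ => rfl
  add_mem' := by
    intro p q hp hq a b h
    rw [LinearMap.add_apply, Pi.add_apply, hp a b h, hq a b h, add_zero]
  smul_mem' := by
    intro c p hp a b h
    rw [LinearMap.smul_apply, Pi.smul_apply, hp a b h, smul_zero]

theorem lt_X (f : List (Fin 4) → K) (P : ℕ → Prop) (i : Fin 4) : Lt (NS f P) (X i) := by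
  intro n p hp
  refine ⟨fun a b h => ?_, fun a b h => ?_⟩
  · rw [Module.End.mul_apply, X_apply]
    refine hp _ _ ?_
    rwa [List.length_append, List.length_singleton, show a.length + 1 + b.length + n =
      a.length + b.length + (n + 1) by omega]
  · have := hp a (i :: b) (by
      rwa [List.length_cons, show a.length + (b.length + 1) + n =
        a.length + b.length + (n + 1) by omega])
    rw [List.map_cons, List.prod_cons] at this
    exact this

/-- the coefficients -/
def L4 (i j : Fin 4) : K := if j = i + 1 ∨ j = i + 2 then 1 else 0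

theorem sq_mem (f : List (Fin 4) → K) (P : ℕ → Prop) (d D : ℕ) (U : Fin 4 → K)
    (h : Rel L4 U d D f) (hP : ∀ m, P (m + 2) → d ≤ m + 2 ∧ m + 2 ≤ D) (i : Fin 4) :
    (X i * X i : Module.End K (List (Fin 4) → K)) ∈ NS f P 2 := by
  intro a b hab
  rw [Module.End.mul_apply, X_apply, X_apply, word_apply, List.append_assoc, List.append_assoc]
  exact h.2 a b i (hP _ hab).1 (hP _ hab).2

theorem rel_mem (f : List (Fin 4) → K) (P : ℕ → Prop) (d D : ℕ) (e : K)
    (h : Rel L4 (fun _ => e) d D f) (hP : ∀ m, P (m + 2) → d ≤ m + 2 ∧ m + 2 ≤ D) (i : Fin 4) :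
    (X (i + 1) * X i + X (i + 2) * X i - X i * X (i + 1) - X i * X (i + 2) - e • X i :
      Module.End K (List (Fin 4) → K)) ∈ NS f P 2 := by
  intro a b hab
  have h1 := h.1 a b i (hP _ hab).1 (hP _ hab).2
  simp only [LinearMap.sub_apply, LinearMap.add_apply, LinearMap.smul_apply, Pi.sub_apply,
    Pi.add_apply, Pi.smul_apply, Module.End.mul_apply, X_apply, word_apply, List.append_assoc,
    List.singleton_append, smul_eq_mul]
  rw [Fin.sum_univ_four] at h1
  simp only [smul_eq_mul] at h1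
  rw [← h1]
  fin_cases i <;> simp [L4] <;> ring

section
variable (f : List (Fin 4) → K) (P : ℕ → Prop) (d D : ℕ) (hP : ∀ m, P (m + 2) → d ≤ m + 2 ∧ m + 2 ≤ D)
include hP

theorem r0 {e : K} (h : Rel L4 (fun _ => e) d D f) :
    (X 1 * X 0 + X 2 * X 0 - X 0 * X 1 - X 0 * X 2 - e • X 0 :
      Module.End K (List (Fin 4) → K)) ∈ NS f P 2 := rel_mem f P d D e h hP 0

theorem r1 {e : K} (h : Rel L4 (fun _ => e) d D f) :
    (X 2 * X 1 + X 3 * X 1 - X 1 * X 2 - X 1 * X 3 - e • X 1 :
      Module.End K (List (Fin 4) → K)) ∈ NS f P 2 := rel_mem f P d D e h hP 1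

theorem r2' {e : K} (h : Rel L4 (fun _ => e) d D f) :
    (X 3 * X 2 + X 0 * X 2 - X 2 * X 3 - X 2 * X 0 - e • X 2 :
      Module.End K (List (Fin 4) → K)) ∈ NS f P 2 := rel_mem f P d D e h hP 2

theorem r3' {e : K} (h : Rel L4 (fun _ => e) d D f) :
    (X 0 * X 3 + X 1 * X 3 - X 3 * X 0 - X 3 * X 1 - e • X 3 :
      Module.End K (List (Fin 4) → K)) ∈ NS f P 2 := rel_mem f P d D e h hP 3

end

theorem nil4 (h6 : (6 : K) ≠ 0) : Nil (L4 : Fin 4 → Fin 4 → K) 9 := by
  have h2 : (2 : K) ≠ 0 := fun h => h6 (by rw [show (6 : K) = 2 * 3 by norm_num, h, zero_mul])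
  intro f hf w hw
  have hP : ∀ m, (fun n => n = 9) (m + 2) → 9 ≤ m + 2 ∧ m + 2 ≤ 9 := by
    intro m hm
    omega
  have q := sq_mem f (fun n => n = 9) 9 9 0 hf hP
  have e0 := r0 f (fun n => n = 9) 9 9 hP (e := 0) hf
  have e1 := r1 f (fun n => n = 9) 9 9 hP (e := 0) hf
  have e2 := r2' f (fun n => n = 9) 9 9 hP (e := 0) hf
  have e3 := r3' f (fun n => n = 9) 9 9 hP (e := 0) hf
  rw [zero_smul, sub_zero] at e0 e1 e2 e3
  have lt := lt_X f (fun n => n = 9)
  have key := pbw4 (N := NS f (fun n => n = 9)) X lt q e0 e1 e2 e3 h2 w hw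
  have := key [] [] rfl
  rw [word_apply, List.map_nil, List.prod_nil] at this
  exact this

theorem low4 (h6 : (6 : K) ≠ 0) (f : List (Fin 4) → K) (hf : Rel L4 (fun _ => (1 : K)) 1 19 f)
    (w : List (Fin 4)) (h1 : 1 ≤ w.length) (h8 : w.length ≤ 8) : f w = 0 := by
  have h2 : (2 : K) ≠ 0 := fun h => h6 (by rw [show (6 : K) = 2 * 3 by norm_num, h, zero_mul])
  have hP : ∀ m, (fun n => n ≤ 19) (m + 2) → 1 ≤ m + 2 ∧ m + 2 ≤ 19 := by
    intro m hm
    omega
  have q := sq_mem f (fun n => n ≤ 19) 1 19 (fun _ => 1) hf hP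
  have e0 := r0 f (fun n => n ≤ 19) 1 19 hP (e := 1) hf
  have e1 := r1 f (fun n => n ≤ 19) 1 19 hP (e := 1) hf
  have e2 := r2' f (fun n => n ≤ 19) 1 19 hP (e := 1) hf
  have e3 := r3' f (fun n => n ≤ 19) 1 19 hP (e := 1) hf
  rw [one_smul] at e0 e1 e2 e3
  have lt := lt_X f (fun n => n ≤ 19)
  have hX := filt4 (N := NS f (fun n => n ≤ 19)) X h6
    (fun n p hp a b (h : a.length + b.length + (n + 1) ≤ 19) => hp a b
      (show a.length + b.length + n ≤ 19 by omega)) lt q e0 e1 e2 e3
  cases w with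
  | nil => simp at h1
  | cons i b =>
    have := hX i [] b (by
      rw [List.length_cons] at h8
      show 0 + b.length + 12 ≤ 19
      omega)
    rw [X_apply, word_apply] at this
    exact this

theorem triv4 (h6 : (6 : K) ≠ 0) : Triv (L4 : Fin 4 → Fin 4 → K) (fun _ => 1) 19 := by
  intro f hf
  have main : ∀ n, ∀ w : List (Fin 4), w.length = n → 1 ≤ n → n ≤ 19 → f w = 0 := by
    intro n
    induction n using Nat.strong_induction_on with
    | _ n ih =>
      intro w hw h1 h19
      by_cases h8 : n ≤ 8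
      · exact low4 h6 f hf w (by omega) (by omega)
      · have hn := nil4 h6 (fun w' => f (w' ++ w.drop 9)) ⟨by
          intro a b i h9 h9'
          have r := hf.1 a (b ++ w.drop 9) i (by omega) (by
            rw [List.length_append, List.length_drop]
            omega)
          have z : f (a ++ i :: (b ++ w.drop 9)) = 0 := by
            refine ih (n - 1) (by omega) _ ?_ (by omega) (by omega)
            rw [List.length_append, List.length_cons, List.length_append, List.length_drop]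
            omega
          rw [z, smul_zero] at r
          simp only [List.append_assoc, List.cons_append, Pi.zero_apply, zero_smul]
          exact r, by
          intro a b i h9 h9'
          have r := hf.2 a (b ++ w.drop 9) i (by omega) (by
            rw [List.length_append, List.length_drop]
            omega)
          simp only [List.append_assoc, List.cons_append]
          exact r⟩ (w.take 9) (by rw [List.length_take]; omega)
        simp only [List.take_append_drop] at hn
        exact hn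
  intro w h1 h19
  exact main _ w rfl h1 h19

/-- FOUR: the special point over every field in which `6 ≠ 0`, with `d = 9` and `D = 19`. -/
theorem four (K : Type) [Field K] (h6 : (6 : K) ≠ 0) :
    Nil (fun i j : Fin 4 => if j = i + 1 ∨ j = i + 2 then (1 : K) else 0) 9 ∧
    Triv (fun i j : Fin 4 => if j = i + 1 ∨ j = i + 2 then (1 : K) else 0) (fun _ => 1) 19 :=
  ⟨nil4 h6, triv4 h6⟩

end Pool.Agent.Zk77.SQ
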